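import Mathlib

/-!
# Splitting a product into squareclasses
-/

set_option autoImplicit false

namespace Pool.Agent.Helper45.TW

/-- the squarefree part away from `B` -/
private theorem sqf_part {v : ℤ} (hv : v ≠ 0) {B : ℕ} :
    ∃ (E : ℕ) (τ u : ℤ), u ≠ 0 ∧ v = τ * E * u ^ 2 ∧ τ ∣ (B : ℤ) ∧ Squarefree E ∧
      Nat.Coprime E B := by
  obtain ⟨a, b, hab, hsq⟩ := Nat.sq_mul_squarefree v.natAbs
  have hvn : v.natAbs ≠ 0 := Int.natAbs_ne_zero.2 hv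
  have hb : b ≠ 0 := by
    rintro rfl
    apply hvn
    rw [← hab]
    simp
  obtain ⟨E, hE⟩ := Nat.gcd_dvd_left a B
  refine ⟨E, v.sign * (Nat.gcd a B : ℕ), b, by exact_mod_cast hb, ?_, ?_, ?_, ?_⟩
  · have h1 : (v.natAbs : ℤ) = (b : ℤ) ^ 2 * ((Nat.gcd a B : ℕ) * (E : ℤ)) := by
      rw [← hab]
      push_cast
      congr 1
      exact_mod_cast hE
    calc v = v.sign * v.natAbs := (Int.sign_mul_natAbs v).symm
      _ = v.sign * (Nat.gcd a B : ℕ) * E * (b : ℤ) ^ 2 := by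
        rw [h1]
        ring
  · have h1 : ((Nat.gcd a B : ℕ) : ℤ) ∣ (B : ℤ) := Int.natCast_dvd_natCast.2 (Nat.gcd_dvd_right a B)
    rcases lt_or_gt_of_ne hv with h2 | h2
    · rw [Int.sign_eq_neg_one_of_neg h2, neg_one_mul]
      exact (neg_dvd).2 h1
    · rw [Int.sign_eq_one_of_pos h2, one_mul]
      exact h1
  · exact hsq.squarefree_of_dvd (Dvd.intro_left _ hE.symm)
  · by_contra hc
    obtain ⟨p, hp, hpE, hpB⟩ := Nat.Prime.not_coprime_iff_dvd.1 hc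
    have h1 : p ∣ a := by
      rw [hE]
      exact Dvd.dvd.mul_left hpE _
    have h2 : p ∣ Nat.gcd a B := Nat.dvd_gcd h1 hpB
    refine Nat.squarefree_iff_prime_squarefree.1 hsq p hp ?_
    rw [hE]
    exact mul_dvd_mul h2 hpE

private theorem sqf_dvd {m n : ℕ} (hm : Squarefree m) (h : ∀ p : ℕ, p.Prime → p ∣ m → p ∣ n) :
    m ∣ n := by
  rw [← Nat.prod_primeFactors_of_squarefree hm]
  exact Finset.prod_primes_dvd _ (fun p hp => (Nat.prime_of_mem_primeFactors hp).prime)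
    (fun p hp => h p (Nat.prime_of_mem_primeFactors hp) (Nat.dvd_of_mem_primeFactors hp))

/-- **Splitting of a product whose common primes divide `M`** -/
theorem split_sq (M q v N τ u : ℤ) (E : ℕ) (hM : M ≠ 0) (hq : q ≠ 0) (hv : v ≠ 0) (hu : u ≠ 0)
    (hcop : ∀ p : ℕ, p.Prime → (p : ℤ) ∣ q → (p : ℤ) ∣ v → (p : ℤ) ∣ M) (hN : N ∣ M) (hτ : τ ∣ M)
    (hE : Squarefree E) (h : q * v = N * τ * E * u ^ 2) :
    ∃ (E₁ E₂ : ℕ) (τ₁ τ₂ u₁ u₂ : ℤ), τ₁ ∣ M ∧ τ₂ ∣ M ∧ q = τ₁ * E₁ * u₁ ^ 2 ∧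
      v = τ₂ * E₂ * u₂ ^ 2 ∧ 1 ≤ E₁ ∧ 1 ≤ E₂ ∧ E₁ * E₂ ≤ E := by
  obtain ⟨E₁, τ₁, u₁, hu₁, hq', hτ₁, hs₁, hc₁⟩ := sqf_part hq (B := M.natAbs)
  obtain ⟨E₂, τ₂, u₂, hu₂, hv', hτ₂, hs₂, hc₂⟩ := sqf_part hv (B := M.natAbs)
  have hMn : M.natAbs ≠ 0 := Int.natAbs_ne_zero.2 hM
  have t₁ : τ₁ ∣ M := hτ₁.trans (Int.natAbs_dvd.2 dvd_rfl)
  have t₂ : τ₂ ∣ M := hτ₂.trans (Int.natAbs_dvd.2 dvd_rfl)
  have hE₁ : E₁ ≠ 0 := hs₁.ne_zero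
  have hE₂ : E₂ ≠ 0 := hs₂.ne_zero
  have hE0 : E ≠ 0 := hE.ne_zero
  have hcc : Nat.Coprime E₁ E₂ := by
    by_contra hc
    obtain ⟨p, hp, h1, h2⟩ := Nat.Prime.not_coprime_iff_dvd.1 hc
    refine Nat.Prime.not_coprime_iff_dvd.2 ⟨p, hp, h1, ?_⟩ hc₁
    refine Int.natCast_dvd.1 (hcop p hp ?_ ?_)
    · rw [hq']
      exact Dvd.dvd.mul_right (Dvd.dvd.mul_left (Int.natCast_dvd_natCast.2 h1) _) _
    · rw [hv']
      exact Dvd.dvd.mul_right (Dvd.dvd.mul_left (Int.natCast_dvd_natCast.2 h2) _) _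
  have hP : Squarefree (E₁ * E₂) := (Nat.squarefree_mul hcc).2 ⟨hs₁, hs₂⟩
  refine ⟨E₁, E₂, τ₁, τ₂, u₁, u₂, t₁, t₂, hq', hv', Nat.one_le_iff_ne_zero.2 hE₁,
    Nat.one_le_iff_ne_zero.2 hE₂, Nat.le_of_dvd (Nat.pos_of_ne_zero hE0) (sqf_dvd hP ?_)⟩
  intro p hp hpP
  by_contra hpE
  -- the prime does not divide `M`
  have hpM : ¬ p ∣ M.natAbs := by
    intro h1
    rcases hp.dvd_mul.1 hpP with h2 | h2
    · exact Nat.Prime.not_coprime_iff_dvd.2 ⟨p, hp, h2, h1⟩ hc₁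
    · exact Nat.Prime.not_coprime_iff_dvd.2 ⟨p, hp, h2, h1⟩ hc₂
  have h0 : ∀ x : ℤ, x ∣ M → x ≠ 0 ∧ x.natAbs.factorization p = 0 := by
    intro x hx
    refine ⟨fun h1 => hM (by rw [h1] at hx; exact zero_dvd_iff.1 hx), ?_⟩
    exact Nat.factorization_eq_zero_of_not_dvd fun h1 => hpM (h1.trans (Int.natAbs_dvd_natAbs.2 hx))
  obtain ⟨n₁, f₁⟩ := h0 τ₁ t₁
  obtain ⟨n₂, f₂⟩ := h0 τ₂ t₂
  obtain ⟨n₃, f₃⟩ := h0 N hN
  obtain ⟨n₄, f₄⟩ := h0 τ hτ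
  have fE : E.factorization p = 0 := Nat.factorization_eq_zero_of_not_dvd hpE
  have fP : (E₁ * E₂).factorization p = 1 :=
    le_antisymm (hP.natFactorization_le_one p)
      ((hp.dvd_iff_one_le_factorization hP.ne_zero).1 hpP)
  have key : τ₁.natAbs * τ₂.natAbs * (E₁ * E₂) * (u₁.natAbs * u₂.natAbs) ^ 2 =
      N.natAbs * τ.natAbs * E * u.natAbs ^ 2 := by
    have h1 : (q * v).natAbs = (N * τ * E * u ^ 2).natAbs := by rw [h]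
    rw [hq', hv'] at h1
    simp only [Int.natAbs_mul, Int.natAbs_pow, Int.natAbs_natCast] at h1
    rw [← h1]
    ring
  have m₁ : τ₁.natAbs ≠ 0 := Int.natAbs_ne_zero.2 n₁
  have m₂ : τ₂.natAbs ≠ 0 := Int.natAbs_ne_zero.2 n₂
  have m₃ : N.natAbs ≠ 0 := Int.natAbs_ne_zero.2 n₃
  have m₄ : τ.natAbs ≠ 0 := Int.natAbs_ne_zero.2 n₄
  have m₅ : u₁.natAbs * u₂.natAbs ≠ 0 :=
    mul_ne_zero (Int.natAbs_ne_zero.2 hu₁) (Int.natAbs_ne_zero.2 hu₂)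
  have m₆ : u.natAbs ≠ 0 := Int.natAbs_ne_zero.2 hu
  have h2 := congrArg (fun n : ℕ => n.factorization p) key
  rw [Nat.factorization_mul (mul_ne_zero (mul_ne_zero m₁ m₂) hP.ne_zero) (pow_ne_zero 2 m₅),
    Nat.factorization_mul (mul_ne_zero m₁ m₂) hP.ne_zero, Nat.factorization_mul m₁ m₂,
    Nat.factorization_pow, Nat.factorization_mul (mul_ne_zero (mul_ne_zero m₃ m₄) hE0) (pow_ne_zero 2 m₆),
    Nat.factorization_mul (mul_ne_zero m₃ m₄) hE0, Nat.factorization_mul m₃ m₄,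
    Nat.factorization_pow] at h2
  simp only [Finsupp.add_apply, Finsupp.smul_apply, f₁, f₂, f₃, f₄, fE, fP, smul_eq_mul] at h2
  omega

end Pool.Agent.Helper45.TW
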